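import Pool.Agent.Helper47.AQ.Phi
import Pool.Agent.Helper72.MK.Goals

/-!
# The equality case of Makai's conjecture in dimension 3 (MP_6fb600_gt, i = 1, n = 3): packets

Main claim `EQ3Stmt`: for a convex body `K` of `ℝ³` with `V(K) V((K-K)°) = 2/3`, `K` is a simplex.
Every packet below contains its complete proof.  Definitions `IsBody`, `dpol`, `F`, `hs`, `wd`,
`IsSimplex`: `Pool/Agent/Helper47/AQ`; `pr`, `sec`, `QV`, `zp`, `zm`, ...: `Pool/Agent/Helper72/MK`.
-/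

open MeasureTheory Set Filter Topology
open scoped ENNReal Quaternion
open Pool.Agent.Helper47.AQ
open Pool.Agent.Helper72.MK

noncomputable section

namespace Pool.Agent.Helper47.ME

/-- The differences of interior points of `K`. -/
def Di (K : Set (Fin 3 → ℝ)) : Set (Fin 3 → ℝ) :=
  {z | ∃ x ∈ interior K, ∃ y ∈ interior K, z = x - y}

/-! ## The plane -/

/-- SUBE. A closed subset of full measure of a convex body is the body.
PROOF. Suppose `z ∈ P`, `z ∉ Q`. `P` is the closure of its interior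
(`Convex.closure_interior_eq_closure_of_nonempty_interior` or similar), `Qᶜ` is an open neighbourhood of
`z`, so `U = interior P ∩ Qᶜ` is open and nonempty, of positive measure, `U ⊆ P`, `U ∩ Q = ∅`,
`Q ⊆ P`: `vol P ≥ vol Q + vol U > vol Q` (`vol Q ≤ vol P < ⊤`), contradiction. -/
def SUBEStmt : Prop := ∀ (n : ℕ) (P Q : Set (Fin n → ℝ)), IsBody P → IsClosed Q → Q ⊆ P →
  volume P ≤ volume Q → P = Q

/-- CHDE. Equality in the inequality for the area of a planar body with a chord `u` and two points.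
PROOF (uses CHORD of MK, SUBE). `Q = conv {x, x+u, y, y'}` is compact and convex, `Q ⊆ P`, and CHORD
for `Q` says `|…|/2 ≤ area Q`. So `area P ≤ area Q` and SUBE gives `P = Q`. -/
def CHDEStmt : Prop := ∀ P : Set (Fin 2 → ℝ), IsBody P → ∀ x u y y' : Fin 2 → ℝ,
  x ∈ P → x + u ∈ P → y ∈ P → y' ∈ P →
  (volume P).toReal ≤ |u 0 * (y 1 - y' 1) - u 1 * (y 0 - y' 0)| / 2 →
  ∃ v : Fin 4 → Fin 2 → ℝ, P = convexHull ℝ (range v)

/-- HEX3. As HEX of MK, with three different numbers.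
PROOF (uses QUAD of MK; the proof of HEX in `Pool/Agent/Helper7/MK` or wherever it is can be copied
with small changes). The six open sectors `±S₁` (`0 < x`, `0 < y`), `±S₂` (`x < 0`, `-x < y`), `±S₃`
(`0 < y < -x`) are disjoint and measurable; `L = -L`. By QUAD: area of `L ∩ S₁` at least
` (a₁(1-r) + a₂ r)/2`. `S₂` is the image of the open quadrant under ` (s,t) ↦ (-t, s+t)` of
determinant ±1, the preimage of `L` contains ` (a₂,0)`, ` (0,a₃)`, ` (1-q,q)`: area at least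
` (a₂ q + a₃ (1-q))/2`. `S₃` is the image of the quadrant under ` (s,t) ↦ (-s-t, s)`, the preimage of `L`
contains ` (a₃,0)`, ` (0,a₁)`, ` (p,1-p)`: area at least ` (a₃ (1-p) + a₁ p)/2`. -/
def HEX3Stmt : Prop := ∀ L : Set (Fin 2 → ℝ), Convex ℝ L → (∀ x ∈ L, -x ∈ L) →
  ∀ p q r a1 a2 a3 : ℝ, 0 ≤ p → p ≤ 1 → 0 ≤ q → q ≤ 1 → 0 ≤ r → r ≤ 1 →
  0 ≤ a1 → 0 ≤ a2 → 0 ≤ a3 →
  ![1, -p] ∈ L → ![-q, 1] ∈ L → ![r, 1 - r] ∈ L → ![a1, 0] ∈ L → ![0, a2] ∈ L → ![-a3, a3] ∈ L →
  ENNReal.ofReal (a1 * (1 - r + p) + a2 * (r + q) + a3 * (2 - q - p)) ≤ volume L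

/-- PLSE. Equality in the planar inequality in standard position.
PROOF (uses HEX3, CHORD of MK, CHDE, BODY of MK). As in PLS of MK: `L = dpol P`,
` (1,0), (0,1), (1,1) ∈ P - P`, so every `p ∈ L` satisfies `|p 0| ≤ 1`, `|p 1| ≤ 1`, `|p 0 + p 1| ≤ 1`;
this gives `p, q, r ∈ [0,1]` with ` (1,-p), (-q,1), (r,1-r) ∈ L`. Let `w₁, w₂, w₃ > 0` be the maxima over
`x, y ∈ P` of `x 0 - y 0`, `x 1 - y 1`, ` (x 0 - y 0) - (x 1 - y 1)` and `a_i = 1/w_i`;
` (a₁,0), (0,a₂), (-a₃,a₃) ∈ L` (symmetry). By CHORD, `area P ≥ w_i/2`, i.e. `a_i area P ≥ 1/2`. If for some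
`i` we have `area P ≤ w_i/2`, then CHDE (with the chord ` (1,0)` and the two points where `w₂` is
attained for `i = 2`, chord ` (0,1)` for `i = 1`, chord ` (1,1)` for `i = 3`) gives the claim. Otherwise
`a_i area P > 1/2` for all `i`, and as the three coefficients in HEX3 are nonnegative with sum 3,
`F P ≥ area P (a₁(1-r+p) + a₂(r+q) + a₃(2-q-p)) > 3/2`, contradiction. -/
def PLSEStmt : Prop := ∀ P : Set (Fin 2 → ℝ), IsBody P →
  (∃ x ∈ P, x + ![1, 0] ∈ P) → (∃ x ∈ P, x + ![0, 1] ∈ P) → (∃ x ∈ P, x + ![1, 1] ∈ P) →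
  (∃ p ∈ dpol P, p 0 = 1) → (∃ p ∈ dpol P, p 1 = 1) → (∃ p ∈ dpol P, p 0 + p 1 = 1) →
  F P ≤ 3 / 2 → ∃ v : Fin 4 → Fin 2 → ℝ, P = convexHull ℝ (range v)

/-- PLE. The equality case in the plane.
PROOF (uses PLSE, PLN of MK). As PL of MK: take `z1, z2` from PLN, `A` the linear equivalence with
`A z1 = (1,0)`, `A z2 = (0,1)`, `P' = A '' P`, `F P' = F P = 3/2` (`F_linear`), the six conditions hold
for `P'`, so `P' = conv (range v)`, hence `P = conv (range (A⁻¹ ∘ v))`. By `few_vertices`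
(`Pool/Agent/Helper47/AQ/Few.lean`, `Fintype.card (Fin 4) = Fintype.card (Fin 2) + 2`) `Cls P`, and by
`Cls.main` (`Class.lean`) `P` is a simplex, as `F P = 3/2 = (2+1)/2!`. -/
def PLEStmt : Prop := ∀ P : Set (Fin 2 → ℝ), IsBody P → F P = 3 / 2 → IsSimplex P

/-- TRIE. Triangles with a horizontal edge.
PROOF. `T = conv (range v)` with `v : σ → ℝ²` affinely independent, and `T` has nonempty interior, so
`affineSpan = ⊤` and `card σ = 3` (`AffineIndependent.affineSpan_eq_top_iff_card_eq_finrank_add_one`). In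
barycentric coordinates `p = ∑ w i • v i`, `p 1 = ∑ w i * v i 1 ≤ M` with equality iff `w i = 0` for all
`i` with `v i 1 ≠ M` (we treat the case `x 1 ≤ M` on `T`; the other one is the same, or apply the
first one to the reflection of `T`). As `p ≠ p'` are both on the level `M`, at least two of the three
`v i` are on the level `M` (with only one, `v i₀`, we get `p = v i₀ = p'`). The third one is not, because
`T` is not contained in the line `x 1 = M`. The two vertices on the level `M` are different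
(injectivity of `v`), order them by the coordinate 0. -/
def TRIEStmt : Prop := ∀ (T : Set (Fin 2 → ℝ)) (M : ℝ), IsSimplex T →
  ((∀ x ∈ T, x 1 ≤ M) ∨ ∀ x ∈ T, M ≤ x 1) →
  (∃ p ∈ T, ∃ p' ∈ T, p ≠ p' ∧ p 1 = M ∧ p' 1 = M) →
  ∃ A B C m : ℝ, A < B ∧ m ≠ M ∧ T = convexHull ℝ {![A, M], ![B, M], ![C, m]}

/-- TET. Recognition of the tetrahedron.
PROOF (uses TRIE). Let `M` be the maximum and `m` the minimum of `x 2` on `K`, `m < M`. The points of
`pr 0 K` are ` (x 1, x 2)`, of `pr 1 K` are ` (x 0, x 2)`, `x ∈ K`; call these triangles `T₀`, `T₁`; the second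
coordinate has the maximum `M` and the minimum `m` on both. (1) `T = T₀` or `T₁` cannot have two different
points on the level `M` and also two different points on the level `m`: by TRIE
`T = conv {(A,M), (B,M), (C,m')}` and then all the points of `T` which are not on the level `M` are above
`m'` or `= (C,m')`; the level `m` has the only point ` (C,m')`. (2) The two top points `p ≠ p'` of `K` differ in
the coordinate 0 or 1, i.e. `T₁` or `T₀` has two points on the level `M`; the same for the level `m`. By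
(1) there are the two cases: (I) `T₁` has two points on the level `M` and `T₀` two points on the level
`m`, or (II) the same with `T₀` and `T₁` exchanged. In the case (I) by TRIE
`T₁ = conv {(A,M), (B,M), (C,m)}`, `T₀ = conv {(A',m), (B',m), (C',M)}`. Then
`K = conv {(A,C',M), (B,C',M), (C,A',m), (C,B',m)}`: the four points are in `K` (e.g. ` (A,M) ∈ T₁`, so there
is `x ∈ K` with `x 0 = A`, `x 2 = M`, and ` (x 1, M) ∈ T₀` forces `x 1 = C'`), and if `x ∈ K`,
`x 2 = (1-s) m + s M`, then `x 0 = (1-s) C + s u` with `u ∈ [A,B]` and `x 1 = (1-s) w + s C'` with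
`w ∈ [A',B']`, so `x = s (u,C',M) + (1-s) (C,w,m)`. Four points whose convex hull has nonempty interior in
`ℝ³` are affinely independent, so `K` is a simplex (`IsSimplex` with `σ = Fin 4`). Case (II) in the
same way. -/
def TETStmt : Prop := ∀ K : Set (Fin 3 → ℝ), IsBody K → IsSimplex (pr 0 K) → IsSimplex (pr 1 K) →
  (∃ p ∈ K, ∃ p' ∈ K, p ≠ p' ∧ p 2 = p' 2 ∧ ∀ x ∈ K, x 2 ≤ p 2) →
  (∃ p ∈ K, ∃ p' ∈ K, p ≠ p' ∧ p 2 = p' 2 ∧ ∀ x ∈ K, p 2 ≤ x 2) → IsSimplex K

/-! ## The segments in the boundary of the polar body -/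

/-- G1X. A sharper form of G1 of MK (for `c` in the closed quadrant): the two cones with apex `c` and a
third set `N` disjoint from them.
PROOF (uses CONE, HALF of MK; compare the proof of G1 of MK). Let `α = area (sec 0 M)`,
`β = area (sec 1 M)`; the half sections `{y ∈ sec i M : y 0 > 0}` have areas `α/2` (`i = 0`), `β/2`
(`i = 1`) by HALF. The cone `C₁` over the second one with apex `c` (CONE, `i = 1`) has volume
`≥ (c 1) β/6`; if `c 1 > 0` it is contained in `M` and in the open quadrant; its points are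
` (1-t) • q + t • c` with `q ∈ M`, `q 1 = 0`, `q 0 > 0`, so by the assumption it is disjoint from `N`. The
cone `C₀` over the first one has volume `≥ (c 0) α/6`, and if `c 0 > 0` it is contained in `M` and in
the quadrant, and disjoint from `N`. If `c 0 > 0` and `c 1 > 0` the cones are separated by the
measurable set `{c 0 * x 1 < c 1 * x 0}` (contains `C₁`, disjoint from `C₀`). If `c i = 0` drop the
corresponding cone (its contribution to the left side is 0). So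
`c 0 α/6 + c 1 β/6 + vol N ≤ vol (M ∩ quadrant)`. (Measures: `N` is measurable, `C₁` is inside the
measurable set `{c 0 * x 1 < c 1 * x 0} \ N`, `C₀` inside `{c 1 * x 0 < c 0 * x 1} \ N`.) -/
def G1XStmt : Prop := ∀ M : Set (Fin 3 → ℝ), IsBody M → (∀ x ∈ M, -x ∈ M) →
  ∀ c ∈ M, 0 ≤ c 0 → 0 ≤ c 1 →
  ∀ N : Set (Fin 3 → ℝ), MeasurableSet N → N ⊆ M ∩ {x | 0 < x 0 ∧ 0 < x 1} →
  (0 < c 0 → ∀ x ∈ N, ∀ q ∈ M, q 0 = 0 → ∀ t : ℝ, 0 < t → t < 1 → x ≠ (1 - t) • q + t • c) →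
  (0 < c 1 → ∀ x ∈ N, ∀ q ∈ M, q 1 = 0 → ∀ t : ℝ, 0 < t → t < 1 → x ≠ (1 - t) • q + t • c) →
  c 0 * (volume (sec 0 M)).toReal + c 1 * (volume (sec 1 M)).toReal + 6 * (volume N).toReal ≤
    6 * (volume (M ∩ {x | 0 < x 0 ∧ 0 < x 1})).toReal

/-- WDM. The segments from `y` to the axis points are in the boundary of the polar body.
PROOF (uses G1X, BODY of MK). Let `e = Pi.single 2 c`, `wd K e = 1`, `wd K y ≤ 1`, so `wd K (y + e) ≤ 2`.
Suppose `wd K (y + e) < 2`; let `p = (1/2)(y + e)`, `wd K p < 1`, and choose `0 < η < 1` with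
`wd K ((1+η) p) < 1` (continuity); put `p' = (1+η) p`. Let `U = {wd K < 1}` (open, inside `dpol K`). For
`i = 0, 1` let `V_i = {x | x i < y i ∧ y i - x i < wd K (y i • x - x i • y)}` if `y i > 0` and `V_i = univ`
if `y i = 0`; these are open. If `y i > 0` then `p' ∈ V_i`: `p' i = (1+η) y i/2 < y i`,
`y i • p' - p' i • y = y i ((1+η)/2) • e` (as `e i = 0`), whose `wd K` is `y i (1+η)/2` and
`y i - p' i = y i (1-η)/2` (note `wd K (s • e) = s` for `s > 0`: `IsBody.wd_smul`). Let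
`N = U ∩ V₀ ∩ V₁ ∩ {0 < x 0 ∧ 0 < x 1}`: open, contained in `M = dpol K`, and nonempty, because
`p' + ε (1,1,0) ∈ N` for small `ε > 0` (`p' i ≥ 0`). The disjointness assumption of G1X with `c = y`: if
`x = (1-t) q + t y`, `q ∈ dpol K`, `q i = 0`, `0 < t < 1`, `y i > 0`, then `x i = t y i` and
`y i • x - x i • y = (y i (1-t)) • q`, so `wd K (…) ≤ y i (1-t) = y i - x i`, so `x ∉ V_i`. Now G1X says
` (3/2) V + 6 vol N ≤ 6 V/4`, but `vol N > 0`, contradiction. -/
def WDMStmt : Prop := ∀ K : Set (Fin 3 → ℝ), IsBody K →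
  (volume (dpol K ∩ {x | 0 < x 0 ∧ 0 < x 1})).toReal = (volume (dpol K)).toReal / 4 →
  ∀ y ∈ dpol K, 0 ≤ y 0 → 0 ≤ y 1 →
  y 0 * (volume (sec 0 (dpol K))).toReal + y 1 * (volume (sec 1 (dpol K))).toReal =
    3 / 2 * (volume (dpol K)).toReal →
  ∀ c : ℝ, wd K (Pi.single 2 c) = 1 → wd K (y + Pi.single 2 c) = 2

/-- FACE. The top and the bottom of `K` are not single points.
PROOF. Let `e = Pi.single 2 c`; `wd K p = hs K p + hs K (-p)` and `hs K` is subadditive. From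
`2 = wd K (y+e) = hs K (y+e) + hs K (-y-e) ≤ hs K y + hs K e + hs K (-y) + hs K (-e) = wd K y + wd K e ≤ 2`
we get `hs K (y+e) = hs K y + hs K e`, `hs K (-y-e) = hs K (-y) + hs K (-e)` and `wd K y = 1`; in the same
way (`wd K (-e) = wd K e`) `hs K (y-e) = hs K y + hs K (-e)` and `hs K (-y+e) = hs K (-y) + hs K e`. `K` is
compact, so `hs K q` is attained; a point `x` where `hs K (q+q') = hs K q + hs K q'` is attained
satisfies `⟨q,x⟩ = hs K q` and `⟨q',x⟩ = hs K q'`. So there are `x₁, x₂, x₃, x₄ ∈ K` with `⟨y,x₁⟩ = ⟨y,x₃⟩ = hs K y`,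
`⟨-y,x₂⟩ = ⟨-y,x₄⟩ = hs K (-y)`, `x₁, x₄` at the top (`⟨e,x⟩ = c * x 2 = hs K e`, `c > 0`), `x₂, x₃` at the
bottom. `⟨y, x₁ - x₄⟩ = hs K y + hs K (-y) = wd K y = 1`, so `x₁ ≠ x₄`; in the same way `x₂ ≠ x₃`. -/
def FACEStmt : Prop := ∀ K : Set (Fin 3 → ℝ), IsBody K → ∀ y : Fin 3 → ℝ, wd K y ≤ 1 →
  ∀ c : ℝ, 0 < c → wd K (Pi.single 2 c) = 1 →
  wd K (y + Pi.single 2 c) = 2 → wd K (y + Pi.single 2 (-c)) = 2 →
  (∃ p ∈ K, ∃ p' ∈ K, p ≠ p' ∧ p 2 = p' 2 ∧ ∀ x ∈ K, x 2 ≤ p 2) ∧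
  (∃ p ∈ K, ∃ p' ∈ K, p ≠ p' ∧ p 2 = p' 2 ∧ ∀ x ∈ K, p 2 ≤ x 2)

/-! ## The body side -/

/-- GEOE. Equality in GEO of MK.
PROOF (uses MIX, PL of MK). `sec i (dpol K) = dpol (pr i K)` (in `∑ p_k (x_k - y_k)` the term `k = i`
vanishes, `Fin.sum_univ_succAbove`; see the proof of GEO of MK), and `pr i K` is a planar body. With
`c' = c - (1/2)(a,b,0)` the four points are `c'`, `c' + a e₀`, `c' + b e₁`, `c' + a e₀ + b e₁`, so MIX gives
`a area(pr 0 K) + b area(pr 1 K) ≤ 3 vol K`, i.e. with `V = vol (dpol K)`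
` (2/(3V)) (F (pr 0 K) + F (pr 1 K)) ≤ 3 vol K = 2/V` as `F K = 2/3`. So `F (pr 0 K) + F (pr 1 K) ≤ 3`, and both
are at least `3/2` by PL. -/
def GEOEStmt : Prop := ∀ K : Set (Fin 3 → ℝ), IsBody K → F K = 2 / 3 →
  ∀ (a b : ℝ) (c : Fin 3 → ℝ),
  a = 2 * (volume (sec 0 (dpol K))).toReal / (3 * (volume (dpol K)).toReal) →
  b = 2 * (volume (sec 1 (dpol K))).toReal / (3 * (volume (dpol K)).toReal) →
  c + (1 / 2 : ℝ) • ![a, b, 0] ∈ K → c - (1 / 2 : ℝ) • ![a, b, 0] ∈ K →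
  c + (1 / 2 : ℝ) • ![a, -b, 0] ∈ K → c - (1 / 2 : ℝ) • ![a, -b, 0] ∈ K →
  IsBody (pr 0 K) ∧ IsBody (pr 1 K) ∧ F (pr 0 K) = 3 / 2 ∧ F (pr 1 K) = 3 / 2

/-- STD. The equality case in standard position.
PROOF (uses GEOE, PLE, G1 of MK, BODY of MK, WDM, FACE, TET). By GEOE and PLE the projections `pr 0 K`,
`pr 1 K` are simplices. `ip y ![a,b,0] = 1` says
`y 0 α + y 1 β = (3/2) V` (`α = area (sec 0 (dpol K))`, `β` for `sec 1`, `V = vol (dpol K) > 0`); G1 of MK for
`M = dpol K` (symmetric body by BODY) says `|y 0| α + |y 1| β ≤ (3/2) V`, and `α, β > 0` (for instance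
from `F (pr i K) = 3/2` and `sec i (dpol K) = dpol (pr i K)`, or `sec i (dpol K)` contains a neighbourhood of
0), so `y 0 ≥ 0`, `y 1 ≥ 0`. Let `c = 1/wd K (Pi.single 2 1) > 0` (`le_wd`), then
`wd K (Pi.single 2 c) = 1 = wd K (Pi.single 2 (-c))` (`wd K (-p) = wd K p`). WDM for `c` and `-c`, FACE, TET. -/
def STDStmt : Prop := ∀ K : Set (Fin 3 → ℝ), IsBody K → F K = 2 / 3 →
  (volume (dpol K ∩ {x | 0 < x 0 ∧ 0 < x 1})).toReal = (volume (dpol K)).toReal / 4 →
  ∀ (a b : ℝ) (c y : Fin 3 → ℝ),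
  a = 2 * (volume (sec 0 (dpol K))).toReal / (3 * (volume (dpol K)).toReal) →
  b = 2 * (volume (sec 1 (dpol K))).toReal / (3 * (volume (dpol K)).toReal) →
  c + (1 / 2 : ℝ) • ![a, b, 0] ∈ K → c - (1 / 2 : ℝ) • ![a, b, 0] ∈ K →
  c + (1 / 2 : ℝ) • ![a, -b, 0] ∈ K → c - (1 / 2 : ℝ) • ![a, -b, 0] ∈ K →
  y ∈ dpol K → ip y ![a, b, 0] = 1 → IsSimplex K

/-- GEZE. The equality case for the diagonals `zp`, `zm`.
PROOF (uses FRM, TR of MK, STD; compare the proof of GEZ of MK). With `n = ![n1 t g, n2 t g, q3 g]`,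
`m = ![m1 t g, m2 t g, q3 g]` and `K' = {y | ∑ y j • n j ∈ K}` as in TR, GEZ: `F K' = F K = 2/3`,
`dpol K' = {p | ∑ p i • m i ∈ dpol K}`, `vol (dpol K') = 2 t V`, the quarter condition holds for `K'`, and the
numbers `a, b` for `K'` are the coefficients of `zA`, `zB`, so that `B (a,b,0) = zp`, `B (a,-b,0) = zm` for
the linear map `B y = ∑ y j • n j`. The four points `B⁻¹ (u ± z/2)` are in `K'`. For `y ∈ dpol K` put
`p j = ip y (n j)`, then `∑ p i • m i = y` (dual bases), so `p ∈ dpol K'`, and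
`ip p ![a,b,0] = ip y zp = 1`. STD: `K'` is a simplex, and `K = B '' K'` (`IsSimplex.affine` with the linear
equivalence `B`). -/
def GEZEStmt : Prop := ∀ K : Set (Fin 3 → ℝ), IsBody K → F K = 2 / 3 → ∀ t : ℝ, 0 < t →
  ∀ g ∈ SS ℍ[ℝ], QV (dpol K) (q1 g) (q2 g) t = (volume (dpol K)).toReal / 4 →
  ∀ u : Fin 3 → ℝ, u + (1 / 2 : ℝ) • zp K t g ∈ K → u - (1 / 2 : ℝ) • zp K t g ∈ K →
    u + (1 / 2 : ℝ) • zm K t g ∈ K → u - (1 / 2 : ℝ) • zm K t g ∈ K →
    ∀ y ∈ dpol K, ip y (zp K t g) = 1 → IsSimplex K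

/-! ## The limit argument -/

/-- MIDI. As MID of MK, on the whole interior of the difference body, with interior points.
PROOF (the proof of MID of MK gives this with small changes). Let `w x = infDist x Kᶜ` (continuous,
`w = 0` off `K`, `w x > 0` exactly for `x` in the interior of `K`); `h(z,x) = w(x + z/2) w(x - z/2)` is
continuous, even in `z`, and vanishes unless `x ± z/2` are in the interior of `K` (then `x ∈ K`). For
`z = p - q`, `p, q` interior points, `x = (p+q)/2` has `x + z/2 = p`, `x - z/2 = q`, so `h(z,x) > 0` and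
`∫ h(z,·) > 0`. Put `c(z) = (∫_K h(z,x) dx)⁻¹ ∫_K h(z,x) x dx`: continuous where `∫ h(z,·) > 0`, even.
`c(z) + z/2` is the average of the points `x + z/2`, which are in the interior of `K` where `h(z,x) > 0`,
so for every `p ≠ 0` we have `⟨p, c(z) + z/2⟩ < hs K p` strictly, hence `c(z) + z/2` is an interior
point (otherwise separate it from the open convex set `interior K`); the same for `c(z) - z/2`.
(Alternative for the last point, if only `c(z) ± z/2 ∈ K` is available for all `z ∈ Di K`: use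
`c'(z) = θ • c(θ⁻¹ • z) + (1-θ) • o` with `o ∈ interior K` and a continuous `θ(z) ∈ (0,1)` with
`θ⁻¹ • z ∈ Di K`.) -/
def MIDIStmt : Prop := ∀ K : Set (Fin 3 → ℝ), IsBody K →
  ∃ c : (Fin 3 → ℝ) → (Fin 3 → ℝ), ContinuousOn c (Di K) ∧
    ∀ z ∈ Di K, c (-z) = c z ∧ c z + (1 / 2 : ℝ) • z ∈ interior K ∧
      c z - (1 / 2 : ℝ) • z ∈ interior K

/-- DII. The set `Di K` is open, contains `δ (K - K)` for `δ < 1`, and a point of `K - K` not in `Di K`
has a supporting functional in `dpol K`.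
PROOF. Open: union over `y` of the translates of the open set `interior K`. Second claim: `o` an
interior point, `δ (x - y) = (δ x + (1-δ) o) - (δ y + (1-δ) o)` and `δ x + (1-δ) o` is an interior point
(`Convex.combo_self_interior_mem_interior` or similar). Third claim: `Di K` is open and convex, contains 0, so by
`geometric_hahn_banach_open_point` there is a linear functional `f = ⟨p₀,·⟩` with `f w < f z` for all
`w ∈ Di K`, `f z > f 0 = 0`; put `p = p₀/f z`, `⟨p,z⟩ = 1`, and for `x, y ∈ K`, `δ < 1`,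
`δ ⟨p, x - y⟩ < 1` by the second claim, let `δ → 1`: `p ∈ dpol K`. -/
def DIIStmt : Prop := ∀ K : Set (Fin 3 → ℝ), IsBody K → IsOpen (Di K) ∧
  (∀ x ∈ K, ∀ y ∈ K, ∀ δ : ℝ, 0 ≤ δ → δ < 1 → δ • (x - y) ∈ Di K) ∧
  ∀ x ∈ K, ∀ y ∈ K, x - y ∉ Di K → ∃ p ∈ dpol K, ip p (x - y) = 1

/-- LIM. The exact parallelogram, with a diagonal on the boundary of the difference body.
PROOF (uses TT, TAU, EQV, CTZ, GEZ, FRM, QVS of MK, MIDI, DII). Take `τ` from TAU and `c` from MIDI,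
`δ_n = 1 - 1/(n+2)`. As in MAIN of MK the function `D_n g = c (δ_n • zp K (τ g) g) - c (δ_n • zm K (τ g) g)` is
continuous on `S = SS ℍ[ℝ]` (`zp, zm ∈ K - K` by GEZ, so `δ_n • zp, δ_n • zm ∈ Di K` by DII),
`D_n (g ω) = -D_n g`, `D_n (g i) = D_n g`, so by TT there is `g_n ∈ S` with
`c (δ_n • zp) = c (δ_n • zm) =: u_n`, and `u_n ± δ_n zp/2, u_n ± δ_n zm/2 ∈ K` (`u_n ∈ K` too, as a midpoint).
`S × K` is compact; pass to a subsequence with `g_n → g ∈ S`, `u_n → u`. By continuity of `zp K (τ g) g`,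
`zm K (τ g) g` on `S` and closedness of `K`, the four points `u ± zp/2`, `u ± zm/2` are in `K`. Claim:
`zp ∉ Di K` or `zm ∉ Di K`. Otherwise by continuity of `c` on the open set `Di K`,
`u = lim c (δ_n • zp_n) = c (zp)` and `u = c (zm)`, so the four points `u ± zp/2`, `u ± zm/2` are in the
interior of `K`, hence for some `δ > 1` also `u ± δ zp/2`, `u ± δ zm/2 ∈ K`, and GEZ gives
`δ (2/3) ≤ F K = 2/3`, contradiction. If `zp ∉ Di K` we are done with `t = τ g`. If `zm ∉ Di K` take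
`g' = g ω`, `t' = (τ g)⁻¹`: by EQV `zp K t' g' = zm K t g`, `zm K t' g' = -zp K t g`, and by QVS (with
`q1 g' = q2 g`, `q2 g' = -q1 g` from FRM) the quarter condition holds for `g', t'`. -/
def LIMStmt : Prop := ∀ K : Set (Fin 3 → ℝ), IsBody K → F K = 2 / 3 →
  ∃ (t : ℝ) (g : ℍ[ℝ]) (u : Fin 3 → ℝ), 0 < t ∧ g ∈ SS ℍ[ℝ] ∧
    QV (dpol K) (q1 g) (q2 g) t = (volume (dpol K)).toReal / 4 ∧
    u + (1 / 2 : ℝ) • zp K t g ∈ K ∧ u - (1 / 2 : ℝ) • zp K t g ∈ K ∧
    u + (1 / 2 : ℝ) • zm K t g ∈ K ∧ u - (1 / 2 : ℝ) • zm K t g ∈ K ∧ zp K t g ∉ Di K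

/-- EQ3. The equality case.
PROOF (uses LIM, DII, GEZE). By LIM we have `t, g, u`; `zp = x - y` with `x = u + zp/2`, `y = u - zp/2` in `K`,
so by DII there is `p ∈ dpol K` with `ip p zp = 1`; GEZE. -/
def EQ3Stmt : Prop := ∀ K : Set (Fin 3 → ℝ), IsBody K → F K = 2 / 3 → IsSimplex K

end Pool.Agent.Helper47.ME
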