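import Pool.Agent.Helper72.MK.Fin
import Pool.Agent.Helper47.ME.Goals

/-!
# Makai's conjecture in dimension 3 with the equality case: the conclusion
-/

open MeasureTheory Set Filter Topology
open Pool.Agent.Helper47.AQ
open Pool.Agent.Helper72.MK

noncomputable section

namespace Pool.Agent.Helper47.ME

/-- All the consequences of the theorem on the volume product and its equality case. -/
theorem final (hM : MAINStmt) (hE : EQ3Stmt) :
    (∀ K : Set (Fin 3 → ℝ), IsBody K →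
      (3 / Real.pi ^ 2) ^ ((1 : ℝ) / 3) * Phi K ≤
        kap 3 ^ ((2 : ℝ) / 3) * (volume K).toReal ^ ((1 : ℝ) / 3) ∧
      ((3 / Real.pi ^ 2) ^ ((1 : ℝ) / 3) * Phi K =
        kap 3 ^ ((2 : ℝ) / 3) * (volume K).toReal ^ ((1 : ℝ) / 3) ↔ IsSimplex K) ∧
      2 / 3 ≤ (volume K).toReal * (volume (dpol K)).toReal ∧
      ((volume K).toReal * (volume (dpol K)).toReal = 2 / 3 ↔ IsSimplex K)) ∧
    IsGreatest {a : ℝ | ∀ K : Set (Fin 3 → ℝ), IsBody K →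
      a * Phi K ≤ kap 3 ^ ((2 : ℝ) / 3) * (volume K).toReal ^ ((1 : ℝ) / 3)}
      ((3 / Real.pi ^ 2) ^ ((1 : ℝ) / 3)) := by
  obtain ⟨h1, h2, h3⟩ := Pool.Agent.Helper72.MK.final hM
  refine ⟨fun K hK => ?_, h3⟩
  obtain ⟨h4, h5⟩ := h1 K hK
  refine ⟨h4, ⟨fun h6 => ?_, fun h6 => (h2 K h6).1⟩, h5, ⟨fun h6 => hE K hK h6,
    fun h6 => (h2 K h6).2⟩⟩
  refine hE K hK ?_
  obtain ⟨-, h7⟩ := hK.Phi_iff
  simp only [Fintype.card_fin] at h7
  have h23 : (((3 : ℕ) : ℝ) - 1) / ((3 : ℕ) : ℝ) = 2 / 3 := by norm_num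
  have hc : ((3 : ℝ) + 1) / ((Nat.factorial 3 : ℕ) : ℝ) = 2 / 3 := by
    norm_num [Nat.factorial]
  rw [h23] at h7
  push_cast at h7
  rw [hc, aC3] at h7
  exact h7.1 h6

end Pool.Agent.Helper47.ME
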