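import Pool.Agent.Helper72.MK.All
import Pool.Agent.Helper69.ME.Sube
import Pool.Agent.Helper31.ME.Chde
import Pool.Agent.Helper61.ME.Hex3
import Pool.Agent.Helper62.ME.Plse
import Pool.Agent.Helper61.ME.Ple
import Pool.Agent.Helper93.ME.Trie
import Pool.Agent.Helper87.ME.Tet
import Pool.Agent.Helper34.ME.G1x
import Pool.Agent.Helper42.ME.Wdm
import Pool.Agent.Helper35.ME.Face
import Pool.Agent.Helper15.ME.Geoe
import Pool.Agent.Helper49.ME.Std
import Pool.Agent.Helper39.ME.Geze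
import Pool.Agent.Helper35.ME.Midi
import Pool.Agent.Helper7.ME.Dii
import Pool.Agent.Helper12.ME.Lim
import Pool.Agent.Helper56.ME.Eq3
import Pool.Agent.Helper47.ME.Fin

/-!
# The equality case of Makai's conjecture in dimension 3: all the packets without hypotheses
-/

open Pool.Agent.Helper47.ME
open Pool.Agent.Helper72.MK

namespace Pool.Agent.Helper47.ME

theorem fSUBE : SUBEStmt := Pool.Agent.Helper69.ME.sube
theorem fCHDE : CHDEStmt := Pool.Agent.Helper31.ME.chde fCHORD fSUBE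
theorem fHEX3 : HEX3Stmt := Pool.Agent.Helper61.ME.hex3 fQUAD
theorem fPLSE : PLSEStmt := Pool.Agent.Helper62.ME.plse fHEX3 fCHDE fBODY
theorem fPLE : PLEStmt := Pool.Agent.Helper61.ME.ple fPLSE fPLN
theorem fTRIE : TRIEStmt := Pool.Agent.Helper93.ME.trie
theorem fTET : TETStmt := Pool.Agent.Helper87.ME.tet fTRIE
theorem fG1X : G1XStmt := Pool.Agent.Helper34.ME.g1x fCONE fHALF
theorem fWDM : WDMStmt := Pool.Agent.Helper42.ME.wdm fG1X fBODY
theorem fFACE : FACEStmt := Pool.Agent.Helper35.ME.face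
theorem fGEOE : GEOEStmt := Pool.Agent.Helper15.ME.geoe fMIX fPL
theorem fSTD : STDStmt := Pool.Agent.Helper49.ME.std fGEOE fPLE fG1 fBODY fWDM fFACE fTET
theorem fGEZE : GEZEStmt := Pool.Agent.Helper39.ME.geze fFRM fTR fSTD
theorem fMIDI : MIDIStmt := Pool.Agent.Helper35.ME.midi
theorem fDII : DIIStmt := Pool.Agent.Helper7.ME.dii
theorem fLIM : LIMStmt := Pool.Agent.Helper12.ME.lim fTT fTAU fEQV fCTZ fGEZ fFRM fMIDI fDII
theorem fEQ3 : EQ3Stmt := Pool.Agent.Helper56.ME.eq3 fLIM fDII fGEZE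

end Pool.Agent.Helper47.ME
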